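import Pool.Agent.Y361.EquiProof

set_option autoImplicit false

namespace Pool.Agent.Results.MP_1940b6_co.NoPolarity

open Pool.Agent.Y361.Equi

/-- There is a finite equivelar polyhedron of type `{10, 10}` that is self-dual and fully
transitive, but has no polarity. -/
theorem result : ∃ (P : Type) (_ : PartialOrder P) (rk : P → ℤ),
    Finite P ∧ IsPolyhedron rk ∧ IsEquivelar rk 10 10 ∧
    (∃ δ : P → P, IsDuality δ) ∧
    (∀ F G : P, rk F = rk G → ∃ γ : P ≃o P, γ F = G) ∧
    ¬ ∃ δ : P → P, IsDuality δ ∧ ∀ F, δ (δ F) = F :=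
  ⟨Pt, inferInstance, Pt.rkZ, inferInstance, Pt.isPolyhedron, Pt.isEquivelar,
    ⟨Pt.dual, Pt.isDuality⟩, Pt.transitive, Pt.no_polarity⟩

end Pool.Agent.Results.MP_1940b6_co.NoPolarity
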